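import Pool.Agent.Helper23.CM.Goals

open scoped ENNReal
open Finset

namespace Pool.Agent.Helper82.CM

open Pool.Agent.Helper92.Eps
open Pool.Agent.Helper99.ZZ
open Pool.Agent.Helper23.CM

theorem GSS_ : GSS_stmt := by
  classical
  intro B D A r φ
  unfold GS
  by_cases hr : r = 0
  · subst hr
    rw [if_pos rfl, tsum_eq_single ([] : List B)]
    · simp [iv, Stp, Alph.W]
    · intro p hp
      unfold iv
      rw [if_neg]
      rintro (⟨-, h⟩ | ⟨h, -⟩)
      · exact hp h
      · omega
  · rw [if_neg hr]
    unfold Alph.GG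
    refine tsum_congr fun p => ?_
    unfold iv
    have h : Stp A r p ↔ A.Str r p := by
      unfold Stp
      constructor
      · rintro (⟨h, -⟩ | ⟨-, h⟩)
        · exact absurd h hr
        · exact h
      · intro h
        exact Or.inr ⟨Nat.one_le_iff_ne_zero.mpr hr, h⟩
    by_cases hs : A.Str r p
    · rw [if_pos hs, if_pos (h.mpr hs)]
    · rw [if_neg hs, if_neg (fun h' => hs (h.mp h'))]

end Pool.Agent.Helper82.CM
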